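import Mathlib

namespace Pool.Agent.H.MP_02a275_nt

/-- the 2-kernel -/
def ker2 (a : ℕ → ℤ) : Set (ℕ → ℤ) := {s | ∃ e r : ℕ, r < 2 ^ e ∧ s = fun n => a (2 ^ e * n + r)}

lemma fg_of_le {M N : Submodule ℤ (ℕ → ℤ)} (hN : N.FG) (h : M ≤ N) : M.FG := by
  haveI : IsNoetherian ℤ N := isNoetherian_of_fg_of_noetherian N hN
  exact Submodule.FG.of_le_of_isNoetherian h

lemma ker_sub (N : Submodule ℤ (ℕ → ℤ)) (h0 : ∀ s ∈ N, (fun n => s (2 * n)) ∈ N)
    (h1 : ∀ s ∈ N, (fun n => s (2 * n + 1)) ∈ N) (a : ℕ → ℤ) (ha : a ∈ N) :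
    Submodule.span ℤ (ker2 a) ≤ N := by
  rw [Submodule.span_le]
  rintro s ⟨e, r, hr, rfl⟩
  induction e generalizing r with
  | zero =>
    have : r = 0 := by simpa using hr
    subst this
    simpa using ha
  | succ e ih =>
    by_cases h : r < 2 ^ e
    · have := h0 _ (ih r h)
      refine (congrArg (· ∈ N) ?_).mp this
      funext n
      congr 1
      ring
    · have h2 : r - 2 ^ e < 2 ^ e := by rw [pow_succ] at hr; omega
      have := h1 _ (ih _ h2)
      refine (congrArg (· ∈ N) ?_).mp this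
      funext n
      congr 1
      rw [pow_succ]
      have : 2 ^ e * (2 * n + 1) = 2 ^ e * 2 * n + 2 ^ e := by ring
      omega

/-- `2 ^ (number of binary ones)` -/
def A (n : ℕ) : ℕ := Nat.binaryRec (motive := fun _ => ℕ) 1 (fun b _ x => if b then 2 * x else x) n

/-- `2 ^ (number of binary zeros)` for positive `n`, and `0` at `0` -/
def B (n : ℕ) : ℕ := Nat.binaryRec (motive := fun _ => ℕ) 0
  (fun b m x => if b then (if m = 0 then 1 else x) else 2 * x) n

lemma A_even (n : ℕ) : A (2 * n) = A n := by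
  have : 2 * n = Nat.bit false n := by simp [Nat.bit]
  rw [this, A, Nat.binaryRec_eq _ _ (by simp)]
  simp [A]

lemma A_odd (n : ℕ) : A (2 * n + 1) = 2 * A n := by
  have : 2 * n + 1 = Nat.bit true n := by simp [Nat.bit]
  rw [this, A, Nat.binaryRec_eq _ _ (by simp)]
  simp [A]

lemma B_even (n : ℕ) : B (2 * n) = 2 * B n := by
  have : 2 * n = Nat.bit false n := by simp [Nat.bit]
  rw [this, B, Nat.binaryRec_eq _ _ (by simp)]
  simp [B]

lemma B_odd (n : ℕ) : B (2 * n + 1) = if n = 0 then 1 else B n := by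
  have : 2 * n + 1 = Nat.bit true n := by simp [Nat.bit]
  rw [this, B, Nat.binaryRec_eq _ _ (by simp)]
  simp [B]

lemma A_zero : A 0 = 1 := by simp [A]
lemma B_zero : B 0 = 0 := by simp [B]

lemma regA : (Submodule.span ℤ (ker2 fun n => (A n : ℤ))).FG := by
  refine fg_of_le (Submodule.fg_span_singleton (fun n => (A n : ℤ)))
    (ker_sub _ ?_ ?_ _ (Submodule.mem_span_singleton_self _))
  · intro s hs
    obtain ⟨c, rfl⟩ := Submodule.mem_span_singleton.1 hs
    exact Submodule.mem_span_singleton.2 ⟨c, by funext n; simp [A_even]⟩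
  · intro s hs
    obtain ⟨c, rfl⟩ := Submodule.mem_span_singleton.1 hs
    exact Submodule.mem_span_singleton.2 ⟨2 * c, by funext n; simp [A_odd]; ring⟩

lemma regB : (Submodule.span ℤ (ker2 fun n => (B n : ℤ))).FG := by
  refine fg_of_le (N := Submodule.span ℤ {fun n => (B n : ℤ), fun n => if n = 0 then 1 else 0})
    (Submodule.fg_span (Set.toFinite _))
    (ker_sub _ ?_ ?_ _ (Submodule.subset_span (by simp)))
  · intro s hs
    obtain ⟨c, d, rfl⟩ := Submodule.mem_span_pair.1 hs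
    refine Submodule.mem_span_pair.2 ⟨2 * c, d, ?_⟩
    funext n
    simp [B_even]
    ring
  · intro s hs
    obtain ⟨c, d, rfl⟩ := Submodule.mem_span_pair.1 hs
    refine Submodule.mem_span_pair.2 ⟨c, c, ?_⟩
    funext n
    by_cases h : n = 0
    · have h1 : B 1 = 1 := by simpa using B_odd 0
      simp [h, B_zero, h1]
    · simp [B_odd, h]

lemma A_val (j m : ℕ) : A (2 ^ j * m + (2 ^ j - 1)) = 2 ^ j * A m := by
  induction j with
  | zero => simp
  | succ j ih =>
    have h : 2 ^ (j + 1) * m + (2 ^ (j + 1) - 1) = 2 * (2 ^ j * m + (2 ^ j - 1)) + 1 := by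
      have : 0 < 2 ^ j := by positivity
      rw [pow_succ]
      have : 2 ^ j * 2 * m = 2 * (2 ^ j * m) := by ring
      omega
    rw [h, A_odd, ih]
    ring

lemma B_val (j m : ℕ) (hm : 0 < m) : B (2 ^ j * m + (2 ^ j - 1)) = B m := by
  induction j with
  | zero => simp
  | succ j ih =>
    have h0 : 0 < 2 ^ j := by positivity
    have h : 2 ^ (j + 1) * m + (2 ^ (j + 1) - 1) = 2 * (2 ^ j * m + (2 ^ j - 1)) + 1 := by
      rw [pow_succ]
      have : 2 ^ j * 2 * m = 2 * (2 ^ j * m) := by ring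
      omega
    have h1 : 0 < 2 ^ j * m := Nat.mul_pos h0 hm
    rw [h, B_odd, if_neg (by omega), ih]

lemma A_pow (k : ℕ) : A (2 ^ k) = 2 := by
  induction k with
  | zero => have := A_odd 0; simpa [A_zero] using this
  | succ k ih => rw [pow_succ, mul_comm, A_even, ih]

lemma B_pow (k : ℕ) : B (2 ^ k) = 2 ^ k := by
  induction k with
  | zero => have := B_odd 0; simpa using this
  | succ k ih => rw [pow_succ, mul_comm, B_even, ih]

lemma xor_pow (i j : ℕ) (h : i ≠ j) : 2 ^ i ^^^ 2 ^ j = 2 ^ i + 2 ^ j := by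
  wlog hij : j < i generalizing i j
  · rw [Nat.xor_comm, add_comm]
    exact this j i h.symm (by omega)
  apply Nat.eq_of_testBit_eq
  intro t
  have h1 : 2 ^ j < 2 ^ i := Nat.pow_lt_pow_right (by norm_num) hij
  have h2 := Nat.testBit_two_pow_mul_add 1 h1 t
  rw [mul_one] at h2
  rw [h2, Nat.testBit_xor, Nat.testBit_two_pow, Nat.testBit_two_pow]
  by_cases h3 : t < i
  · have h4 : ¬ i = t := by omega
    rw [if_pos h3]
    simp [h4]
  · rw [if_neg h3]
    have h4 : ¬ j = t := by omega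
    by_cases h5 : i = t
    · subst h5; simp [h4]
    · have h6 : t - i ≠ 0 := by omega
      have h7 : (1 : ℕ).testBit (t - i) = false := by
        have := Nat.testBit_two_pow_of_ne (n := 0) (m := t - i) h6.symm
        simpa using this
      simp [h4, h5, h7]

theorem not_fg (N : Submodule ℤ (ℕ → ℤ)) (hN : N.FG)
    (h : ∀ k : ℕ, (fun n => ((A (2 ^ k * n + (2 ^ k - 1)) ^^^ B (2 ^ k * n + (2 ^ k - 1)) : ℕ) : ℤ))
      ∈ N) : False := by
  set M := N ⊔ Submodule.span ℤ (ker2 fun n => (A n : ℤ)) ⊔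
    Submodule.span ℤ (ker2 fun n => (B n : ℤ)) with hM
  have hMfg : M.FG := (hN.sup regA).sup regB
  let d : ℕ → ℕ → ℤ := fun k n => (A (2 ^ k * n + (2 ^ k - 1)) : ℤ) + B (2 ^ k * n + (2 ^ k - 1)) -
    ((A (2 ^ k * n + (2 ^ k - 1)) ^^^ B (2 ^ k * n + (2 ^ k - 1)) : ℕ) : ℤ)
  have hlt : ∀ k : ℕ, 2 ^ k - 1 < 2 ^ k := fun k => Nat.sub_lt (by positivity) one_pos
  have hd : ∀ k, d k ∈ M := by
    intro k
    have h1 : (fun n => (A (2 ^ k * n + (2 ^ k - 1)) : ℤ)) ∈ M :=
      Submodule.mem_sup_left (Submodule.mem_sup_right (Submodule.subset_span ⟨k, _, hlt k, rfl⟩))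
    have h2 : (fun n => (B (2 ^ k * n + (2 ^ k - 1)) : ℤ)) ∈ M :=
      Submodule.mem_sup_right (Submodule.subset_span ⟨k, _, hlt k, rfl⟩)
    have h3 := Submodule.mem_sup_left (T := Submodule.span ℤ (ker2 fun n => (B n : ℤ)))
      (Submodule.mem_sup_left (T := Submodule.span ℤ (ker2 fun n => (A n : ℤ))) (h k))
    exact M.sub_mem (M.add_mem h1 h2) h3
  have hval : ∀ j k, d j (2 ^ (k + 1)) = if j = k then 2 ^ (k + 2) else 0 := by
    intro j k
    simp only [d]
    rw [A_val, B_val _ _ (by positivity), A_pow, B_pow, ← pow_succ]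
    split_ifs with hjk
    · subst hjk
      simp
      ring
    · rw [xor_pow _ _ (by omega)]
      push_cast
      ring
  have hli : LinearIndependent ℤ d := by
    rw [linearIndependent_iff']
    intro s g hg i hi
    have := congrFun hg (2 ^ (i + 1))
    simp only [Finset.sum_apply, Pi.smul_apply, smul_eq_mul, hval, mul_ite, mul_zero,
      Finset.sum_ite_eq', hi, if_true, Pi.zero_apply] at this
    exact (mul_eq_zero.1 this).resolve_right (by positivity)
  haveI : IsNoetherian ℤ M := isNoetherian_of_fg_of_noetherian M hMfg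
  have hli2 : LinearIndependent ℤ (fun k => (⟨d k, hd k⟩ : M)) :=
    LinearIndependent.of_comp M.subtype hli
  have := hli2.finite_of_isNoetherian
  exact not_finite ℕ

end Pool.Agent.H.MP_02a275_nt
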